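import Pool.Agent.Lib.F059.Final

/-!
# MP_f059c0_co: every triangulation becomes Hamiltonian after o(n^2) flips

Point sets in general position (no three points collinear).  `F059.h n` is the maximum of
`F059.hT P T` over all n-point sets `P` and all triangulations `T` of `P`.
-/

namespace Pool.Agent.Results.MP_f059c0_co.HamiltonianFlips

open Asymptotics Filter

theorem result :
    (∀ n : ℕ, 1 ≤ n → F059.h n ≠ ⊤) ∧
      (fun n : ℕ => ((F059.h n).toNat : ℝ)) =o[atTop] (fun n : ℕ => (n : ℝ) ^ 2) :=
  ⟨fun _ hn => F059.h_finite hn, F059.h_isLittleO⟩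

end Pool.Agent.Results.MP_f059c0_co.HamiltonianFlips
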